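import Pool.Agent.Helper98_PP.StmtsR2b
import Pool.Agent.Helper59_PP.Lift
import Pool.Agent.Helper18_PP.Good

/-!
# Squad PP: R2 from DBL, SUM, the components and J-II
-/

open scoped BigOperators

noncomputable section

namespace Pool.Agent.PP.H98

open Pool.Agent.Helper51_AWC Pool.Agent.Helper79_WRA Pool.Agent.PP

theorem rr2 (hps3 : Ps3Stmt) (hdbl : DblStmt) (hsum : SumStmt) (hcom : ComStmt)
    (hjii : JiiStmt) : R2Stmt := by
  intro ℓ hℓ F hFi hF G hG hfin N hCh hO hna hns hgood hY e he hpos b hb hst heb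
  have hN : N.Normal := hCh.1
  have hdz : ¬ DZ ℓ b := fun h => he.2.1 ((hps3 ℓ F hF G N hN b hb hst e he.1 heb).2 h hpos)
  obtain ⟨τ, hτ⟩ := H59.exists_lift ℓ F hF
  have hcl : IsCl (ext0 N b) := by
    intro x y
    have hy : y ∈ stabF (ext0 N b) := by rw [hst]; exact Subgroup.mem_top y
    exact hy x
  have hS : SBlk N (ext0 N b) := by
    refine ⟨fun x hx => ?_, hcl, ?_⟩
    · unfold ext0
      rw [dif_neg hx]
    · have : (fun t : N => ext0 N b t) = b := by
        funext t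
        unfold ext0
        rw [dif_pos t.2]
      rw [this]
      exact hb
  obtain ⟨I, hI, hI', K, bK, act, hK⟩ := hcom ℓ F hF G N hCh hO hna hns b hb hst hdz
  refine hsum ℓ F hF τ hτ G N hN (ext0 N b) hS ?_ e he.1 heb
  refine hjii ℓ F hF G N b hS I K bK act hK ?_ τ hτ
  intro i τ' hτ'
  refine hdbl ℓ F hF τ' hτ' _ _ ?_ _ (hK.sblk i) (hK.pos i) (mu N) (hK.mu i) hY ?_
  · infer_instance
  · exact hgood.subgroupOf _ (hK.le i)

end Pool.Agent.PP.H98
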