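import Pool.Agent.Helper46_PP.StmtsTop
import Pool.Agent.Helper58_CL.Stmt

/-!
# Squad PP, part R2 (J-II): torus data, products and cyclic permutations of components

Text: `AWC_R2.md`.  A torus datum on a finite group `Y` consists of a block `f`, two automorphisms
`α`, `β` fixing `f` and a unit `w` of `F Y f` with `w n = κ⁻¹(n) w`, `κ = α β α⁻¹ β⁻¹`.  If `Y` is
normal in a group `X`, `α` and `β` are the conjugations by `x`, `y` and `u` is a unit over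
`k = [x, y]`, then `w = k⁻¹ u`.
-/

open scoped BigOperators

noncomputable section

namespace Pool.Agent.PP

open Pool.Agent.Helper51_AWC Pool.Agent.Helper79_WRA

section datum

variable {F Y : Type} [Field F] [Group Y]

/-- `κ = α β α⁻¹ β⁻¹` -/
def kap (α β : MulAut Y) : MulAut Y := α * β * α⁻¹ * β⁻¹

/-- `α ∘ inn(n)` -/
def tw (α : MulAut Y) (n : Y) : MulAut Y := α * MulAut.conj n

/-- The element `c(n,m)` with `[α ∘ inn(n), β ∘ inn(m)] = κ ∘ inn(c(n,m))`; it is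
`[x, y]⁻¹ [x n, y m]` if `α`, `β` are the conjugations by `x`, `y`. -/
def cc (α β : MulAut Y) (n m : Y) : Y := (kap α β)⁻¹ (α (n * β m * (β n)⁻¹)) * (β m)⁻¹

/-- `w` is a unit of `F Y f` with inverse `wi`, and `w n = γ⁻¹(n) w` for all `n`. -/
structure Unt (f : Y → F) (γ : MulAut Y) (w wi : Y → F) : Prop where
  fw : mulF f w = w
  fwi : mulF f wi = wi
  unit : mulF w wi = f
  unit' : mulF wi w = f
  comm : ∀ n y, w (γ⁻¹ n * y * n⁻¹) = w y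

/-- Torus data. -/
structure Torus (f : Y → F) (α β : MulAut Y) (w wi : Y → F) : Prop where
  blk : IsBlk f
  fa : ∀ y, f (α y) = f y
  fb : ∀ y, f (β y) = f y
  unt : Unt f (kap α β) w wi

/-- The chain is fixed by the automorphism. -/
def FixC (α : MulAut Y) (d : Finset (Subgroup Y)) : Prop := ∀ D ∈ d, D.map α.toMonoidHom = D

/-- `IsTS X φ α β v s`: there are a representation `ρ` of `X` with trace `φ` and matrices `A`, `B`
implementing `α` and `β` such that `A B A⁻¹ B⁻¹ ρ(v) = s`. -/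
def IsTS (X : Subgroup Y) (φ : X → F) (α β : MulAut Y) (v : Y → F) (s : F) : Prop :=
  ∃ (n : ℕ) (ρ : X →* Matrix (Fin n) (Fin n) F) (A B : (Matrix (Fin n) (Fin n) F)ˣ),
    IsIrr ρ ∧ tr ρ = φ ∧ Impl ρ α A ∧ Impl ρ β B ∧
    ((A * B * A⁻¹ * B⁻¹ : (Matrix (Fin n) (Fin n) F)ˣ) : Matrix (Fin n) (Fin n) F) *
      ev ρ (fun t : X => v t) = Matrix.scalar (Fin n) s

/-- The scalar of `IsTS`. -/
def ts (X : Subgroup Y) (φ : X → F) (α β : MulAut Y) (v : Y → F) : F :=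
  open Classical in if h : ∃ s, IsTS X φ α β v s then h.choose else 0

/-- The irreducible modular characters of `X` fixed by `α` and `β` on which `f` acts as the
identity. -/
def tset (X : Subgroup Y) (f : Y → F) (α β : MulAut Y) : Set (X → F) :=
  {φ | φ ∈ IBr F X ∧ actF (fun t : X => f t) φ = φ ∧
    (∀ h h' : X, (h' : Y) = α h → φ h' = φ h) ∧ ∀ h h' : X, (h' : Y) = β h → φ h' = φ h}

/-- The contribution of a chain `d` fixed by `α` and `β`. -/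
def tcon (τ : F → ℂ) (f : Y → F) (α β : MulAut Y) (w : Y → F) (d : Finset (Subgroup Y)) : ℂ :=
  (Nat.card (stab d) : ℂ)⁻¹ * ∑ᶠ φ ∈ tset (stab d) f α β, τ (ts (stab d) φ α β w)

open Classical in
/-- The pair sum of the torus datum: the sum over all `n`, `m` in `Y` and all normal chains of
`ℓ`-subgroups fixed by `α ∘ inn(n)` and `β ∘ inn(m)`. -/
def DD (τ : F → ℂ) (ℓ : ℕ) [Finite Y] (f : Y → F) (α β : MulAut Y) (w : Y → F) : ℂ :=
  ∑ᶠ (n : Y) (m : Y), ∑ d ∈ (chainsOn (psubIn ℓ (⊤ : Subgroup Y)) ⊥).filter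
    (fun d => NormalChain d ∧ FixC (tw α n) d ∧ FixC (tw β m) d), (-1) ^ (d.card + 1) *
      tcon τ f (tw α n) (tw β m) (fun y => w (cc α β n m * y)) d

/-- The pair sums of all torus data `(f; α, β; w)` vanish. -/
def Van (ℓ : ℕ) [Finite Y] (f : Y → F) (α β : MulAut Y) : Prop :=
  ∀ τ : F → ℂ, IsLift τ → ∀ w wi : Y → F, Torus f α β w wi → DD τ ℓ f α β w = 0

/-- the restriction of the automorphism `α` to the subgroup `K` is `α₁` -/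
def ResA (K : Subgroup Y) (α : MulAut Y) (α₁ : MulAut K) : Prop :=
  ∀ k : K, ((α₁ k : K) : Y) = α k

/-- `f₁` is the block of the subgroup `K` under `f` -/
def BlkU (K : Subgroup Y) (f : Y → F) (f₁ : K → F) : Prop :=
  IsBlk f₁ ∧ mulF (ext0 K f₁) f = f

end datum

/-! ## Scalars -/

/-- TSB: the scalars exist and are unique; they are not zero for normal chains. -/
def TsbStmt : Prop := ∀ (ℓ : ℕ) (F : Type) [Field F], GoodF ℓ F → ∀ (Y : Type) [Group Y] [Finite Y]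
  (f : Y → F) (α β : MulAut Y) (w wi : Y → F), Torus f α β w wi →
  ∀ d ∈ chainsOn (psubIn ℓ (⊤ : Subgroup Y)) ⊥, FixC α d → FixC β d →
  ∀ φ ∈ tset (stab d) f α β,
    IsTS (stab d) φ α β w (ts (stab d) φ α β w) ∧
    (∀ s, IsTS (stab d) φ α β w s → s = ts (stab d) φ α β w) ∧
    (NormalChain d → ts (stab d) φ α β w ≠ 0)

/-- THE: multiplicativity of the evaluation for normal chains (Brauer map). -/
def TheStmt : Prop := ∀ (ℓ : ℕ) (F : Type) [Field F], GoodF ℓ F → ∀ (Y : Type) [Group Y] [Finite Y],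
  ∀ d ∈ chainsOn (psubIn ℓ (⊤ : Subgroup Y)) ⊥, NormalChain d →
  ∀ (n : ℕ) (ρ : stab d →* Matrix (Fin n) (Fin n) F), IsIrr ρ →
  ∀ γ₁ γ₂ : MulAut Y, FixC γ₁ d → FixC γ₂ d → ∀ w₁ w₂ : Y → F,
  (∀ n y, w₁ (γ₁⁻¹ n * y * n⁻¹) = w₁ y) → (∀ n y, w₂ (γ₂⁻¹ n * y * n⁻¹) = w₂ y) →
  ∀ A₂ : (Matrix (Fin n) (Fin n) F)ˣ, Impl ρ γ₂ A₂ →
    ev ρ (fun t : stab d => w₁ t) * A₂ * ev ρ (fun t : stab d => w₂ t) =
      A₂ * ev ρ (fun t : stab d => mulF (fun y => w₁ (γ₂ y)) w₂ t)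

/-- INX: for a normal chain `d` and a unit `w` implementing `γ⁻¹`, some `γ ∘ inn(h)` centralises
the top of the chain, and it fixes all characters in `f`. -/
def InxStmt : Prop := ∀ (ℓ : ℕ) (F : Type) [Field F], GoodF ℓ F → ∀ (Y : Type) [Group Y] [Finite Y],
  ∀ d ∈ chainsOn (psubIn ℓ (⊤ : Subgroup Y)) ⊥, NormalChain d →
  ∀ (f : Y → F) (γ : MulAut Y) (w wi : Y → F), IsBlk f → Unt f γ w wi →
  ∀ φ ∈ IBr F (stab d), actF (fun t : stab d => f t) φ = φ →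
    (∃ h : Y, ∀ r ∈ top d, tw γ h r = r) ∧
    ∀ h : Y, FixC (tw γ h) d → ∀ t t' : stab d, (t' : Y) = tw γ h t → φ t' = φ t

/-! ## Invariance properties of the pair sum -/

/-- SHF: replacing `α`, `β` by `α ∘ inn(a)`, `β ∘ inn(b)`. -/
def ShfStmt : Prop := ∀ (ℓ : ℕ) (F : Type) [Field F], GoodF ℓ F → ∀ (Y : Type) [Group Y] [Finite Y]
  (f : Y → F) (α β : MulAut Y) (w wi : Y → F), Torus f α β w wi → ∀ a b : Y,
    (∃ wi', Torus f (tw α a) (tw β b) (fun y => w (cc α β a b * y)) wi') ∧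
    ∀ τ : F → ℂ, DD τ ℓ f (tw α a) (tw β b) (fun y => w (cc α β a b * y)) = DD τ ℓ f α β w

/-- ISO: isomorphisms. -/
def IsoStmt : Prop := ∀ (ℓ : ℕ) (F : Type) [Field F] (Y Y' : Type) [Group Y] [Finite Y] [Group Y']
  [Finite Y'] (θ : Y ≃* Y') (f : Y → F) (α β : MulAut Y) (f' : Y' → F) (α' β' : MulAut Y'),
  (∀ y, f' (θ y) = f y) → (∀ y, α' (θ y) = θ (α y)) → (∀ y, β' (θ y) = θ (β y)) →
  Van ℓ f α β → Van ℓ f' α' β'

/-- SCL: the vanishing does not depend on the unit. -/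
def SclStmt : Prop := ∀ (ℓ : ℕ) (F : Type) [Field F], GoodF ℓ F → ∀ (Y : Type) [Group Y] [Finite Y]
  (f : Y → F) (α β : MulAut Y) (w wi w' wi' : Y → F), Torus f α β w wi → Torus f α β w' wi' →
  ∀ τ : F → ℂ, IsLift τ → DD τ ℓ f α β w = 0 → DD τ ℓ f α β w' = 0

/-- NIE: shears. -/
def NieStmt : Prop := ∀ (ℓ : ℕ) (F : Type) [Field F], GoodF ℓ F → ∀ (Y : Type) [Group Y] [Finite Y]
  (f : Y → F) (α β : MulAut Y), Van ℓ f α (β * α) → Van ℓ f α β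

/-- SWA: exchange of the two automorphisms. -/
def SwaStmt : Prop := ∀ (ℓ : ℕ) (F : Type) [Field F], GoodF ℓ F → ∀ (Y : Type) [Group Y] [Finite Y]
  (f : Y → F) (α β : MulAut Y), Van ℓ f β α → Van ℓ f α β

/-- LZ: central coverings with kernel of order prime to `ℓ`. -/
def LzStmt : Prop := ∀ (ℓ : ℕ) (F : Type) [Field F], GoodF ℓ F → ∀ (Y₁ Y : Type) [Group Y₁]
  [Finite Y₁] [Group Y] [Finite Y] (p : Y₁ →* Y), Function.Surjective p →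
  p.ker ≤ Subgroup.center Y₁ → ¬ ℓ ∣ Nat.card p.ker → ∀ (f : Y → F) (α β : MulAut Y)
  (α₁ β₁ : MulAut Y₁), IsBlk f → (∀ y, p (α₁ y) = α (p y)) → (∀ y, p (β₁ y) = β (p y)) →
  IsBlk (fun y => (Nat.card p.ker : F)⁻¹ * f (p y)) ∧
    (Van ℓ (fun y => (Nat.card p.ker : F)⁻¹ * f (p y)) α₁ β₁ → Van ℓ f α β)

/-! ## Chains -/

/-- NCG: only normal chains matter, general form: `P` is a family of `ℓ`-subgroups closed under
the formation of `{x ∈ D : x normalises D₁, ..., Dᵢ}`, the weight `W` does not change if such a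
subgroup is inserted into the chain. -/
def NcgStmt : Prop := ∀ (ℓ : ℕ) [Fact ℓ.Prime] (G : Type) [Group G] [Finite G]
  (P : Finset (Subgroup G)) (W : Finset (Subgroup G) → ℂ), (∀ D ∈ P, IsPGroup ℓ D) → ⊥ ∈ P →
  (∀ s : Finset (Subgroup G), s ⊆ P → ∀ D ∈ P, (∀ E ∈ s, E ≤ D) →
    (D ⊓ ⨅ E ∈ s, Subgroup.normalizer (E : Set G) : Subgroup G) ∈ P) →
  (∀ d ∈ chainsOn P ⊥, ∀ s : Finset (Subgroup G), s ⊆ d → ∀ D ∈ d, (∀ E ∈ s, E ≤ D) →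
    W (open Classical in insert (D ⊓ ⨅ E ∈ s, Subgroup.normalizer (E : Set G)) d) = W d) →
  open Classical in ∑ d ∈ chainsOn P ⊥, (-1) ^ (d.card + 1) * W d =
    ∑ d ∈ (chainsOn P ⊥).filter NormalChain, (-1) ^ (d.card + 1) * W d

open Classical in
/-- BOX: reduction to the closed chains for a closure operator `c` on the `ℓ`-subgroups. -/
def BoxStmt : Prop := ∀ (ℓ : ℕ) [Fact ℓ.Prime] (F : Type) [Field F], GoodF ℓ F →
  ∀ (Y : Type) [Group Y] [Finite Y] (f : Y → F) (α β : MulAut Y) (w : Y → F) (τ : F → ℂ)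
  (c : Subgroup Y → Subgroup Y), (∀ D : Subgroup Y, IsPGroup ℓ D → IsPGroup ℓ (c D)) →
  (∀ D : Subgroup Y, D ≤ c D) → (∀ D E : Subgroup Y, D ≤ E → c D ≤ c E) →
  (∀ D : Subgroup Y, c (c D) = c D) → c ⊥ = ⊥ →
  (∀ (n : Y) (D : Subgroup Y),
    c (D.map (MulAut.conj n).toMonoidHom) = (c D).map (MulAut.conj n).toMonoidHom) →
  (∀ D : Subgroup Y, c (D.map α.toMonoidHom) = (c D).map α.toMonoidHom) →
  (∀ D : Subgroup Y, c (D.map β.toMonoidHom) = (c D).map β.toMonoidHom) →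
  (∀ s : Finset (Subgroup Y), (∀ E ∈ s, c E = E) → ∀ D : Subgroup Y, c D = D →
    (∀ E ∈ s, E ≤ D) → c (D ⊓ ⨅ E ∈ s, Subgroup.normalizer (E : Set Y)) =
      D ⊓ ⨅ E ∈ s, Subgroup.normalizer (E : Set Y)) →
  DD τ ℓ f α β w = ∑ᶠ (n : Y) (m : Y), ∑ d ∈ (chainsOn (psubIn ℓ (⊤ : Subgroup Y)) ⊥).filter
    (fun d => NormalChain d ∧ (FixC (tw α n) d ∧ FixC (tw β m) d) ∧ ∀ D ∈ d, c D = D),
      (-1) ^ (d.card + 1) * tcon τ f (tw α n) (tw β m) (fun y => w (cc α β n m * y)) d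

/-! ## Products -/

/-- FBK: the blocks of commuting subgroups generating `Y`. -/
def FbkStmt : Prop := ∀ (ℓ : ℕ) (F : Type) [Field F], GoodF ℓ F → ∀ (Y : Type) [Group Y] [Finite Y]
  (K K' : Subgroup Y), (∀ x ∈ K, ∀ y ∈ K', x * y = y * x) → K ⊔ K' = ⊤ →
  ¬ ℓ ∣ Nat.card (Subgroup.center Y) → ∀ f : Y → F, IsBlk f →
  (∃ f₁ : K → F, BlkU K f f₁) ∧
  (∀ f₁ f₂ : K → F, BlkU K f f₁ → BlkU K f f₂ → f₁ = f₂) ∧
  ∀ (f₁ : K → F) (f₂ : K' → F), BlkU K f f₁ → BlkU K' f f₂ →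
    mulF (ext0 K f₁) (ext0 K' f₂) = f

/-- FCU: units of a product give units of the factors. -/
def FcuStmt : Prop := ∀ (ℓ : ℕ) (F : Type) [Field F], GoodF ℓ F → ∀ (Y : Type) [Group Y] [Finite Y]
  (K K' : Subgroup Y), (∀ x ∈ K, ∀ y ∈ K', x * y = y * x) → K ⊔ K' = ⊤ →
  ¬ ℓ ∣ Nat.card (Subgroup.center Y) → ∀ f : Y → F, IsBlk f → ∀ f₁ : K → F, BlkU K f f₁ →
  ∀ (γ : MulAut Y) (γ₁ : MulAut K), ResA K γ γ₁ → K'.map γ.toMonoidHom = K' →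
  ∀ w wi : Y → F, Unt f γ w wi → ∃ w₁ wi₁ : K → F, Unt f₁ γ₁ w₁ wi₁

/-- PRD: the pair sum of a direct product of two torus data. -/
def PrdStmt : Prop := ∀ (ℓ : ℕ) [Fact ℓ.Prime] (F : Type) [Field F], GoodF ℓ F →
  ∀ (Y₁ Y₂ : Type) [Group Y₁] [Finite Y₁] [Group Y₂] [Finite Y₂]
  (f₁ : Y₁ → F) (f₂ : Y₂ → F) (α₁ β₁ : MulAut Y₁) (α₂ β₂ : MulAut Y₂) (w₁ wi₁ : Y₁ → F)
  (w₂ wi₂ : Y₂ → F), Torus f₁ α₁ β₁ w₁ wi₁ → Torus f₂ α₂ β₂ w₂ wi₂ →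
  IsBlk (fun y : Y₁ × Y₂ => f₁ y.1 * f₂ y.2) ∧ ∀ τ : F → ℂ, IsLift τ →
    DD τ ℓ (fun y : Y₁ × Y₂ => f₁ y.1 * f₂ y.2) (MulEquiv.prodCongr α₁ α₂)
      (MulEquiv.prodCongr β₁ β₂) (fun y => w₁ y.1 * w₂ y.2) =
      DD τ ℓ f₁ α₁ β₁ w₁ * DD τ ℓ f₂ α₂ β₂ w₂

/-- The automorphism `(k₀, ..., k_p) ↦ (β₀ k_p, k₀, ..., k_(p-1))` of `K^(p+1)`. -/
def IsShift {K : Type} [Group K] (p : ℕ) (β : MulAut (Fin (p + 1) → K)) (β₀ : MulAut K) : Prop :=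
  ∀ k : Fin (p + 1) → K, (β k) 0 = β₀ (k (Fin.last p)) ∧ ∀ j : Fin p, (β k) j.succ = k j.castSucc

/-- CYD: the pair sum of a direct power with a cyclic permutation. -/
def CydStmt : Prop := ∀ (ℓ : ℕ) [Fact ℓ.Prime] (F : Type) [Field F], GoodF ℓ F →
  ∀ (K : Type) [Group K] [Finite K] (p : ℕ) (f₀ : K → F) (αs : Fin (p + 1) → MulAut K)
  (β₀ : MulAut K) (α β : MulAut (Fin (p + 1) → K)), IsBlk f₀ → (∀ j y, f₀ (αs j y) = f₀ y) →
  (∀ y, f₀ (β₀ y) = f₀ y) → (∀ k j, (α k) j = αs j (k j)) → IsShift p β β₀ →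
  ∀ (κ : Fin (p + 1) → MulAut K), (∀ k j, (kap α β k) j = κ j (k j)) →
  ∀ w wi : Fin (p + 1) → K → F, (∀ j, Unt f₀ (κ j) (w j) (wi j)) →
  IsBlk (fun k : Fin (p + 1) → K => ∏ j, f₀ (k j)) ∧
  (Van ℓ f₀ (αs 0) β₀ → ∀ τ : F → ℂ, IsLift τ →
    DD τ ℓ (fun k : Fin (p + 1) → K => ∏ j, f₀ (k j)) α β (fun k => ∏ j, w j (k j)) = 0)

/-- PRV: the vanishing for a central product of two stable factors. -/
def PrvStmt : Prop := ∀ (ℓ : ℕ) [Fact ℓ.Prime] (F : Type) [Field F], GoodF ℓ F →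
  ∀ (Y : Type) [Group Y] [Finite Y] (K K' : Subgroup Y), (∀ x ∈ K, ∀ y ∈ K', x * y = y * x) →
  K ⊔ K' = ⊤ → ¬ ℓ ∣ Nat.card (Subgroup.center Y) → ∀ (f : Y → F) (α β : MulAut Y)
  (α₁ β₁ : MulAut K), ResA K α α₁ → ResA K β β₁ → K'.map α.toMonoidHom = K' →
  K'.map β.toMonoidHom = K' → ∀ f₁ : K → F, BlkU K f f₁ → Van ℓ f₁ α₁ β₁ → Van ℓ f α β

/-- CYV: the vanishing for a central product of factors permuted cyclically by `β` and fixed by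
`α`. -/
def CyvStmt : Prop := ∀ (ℓ : ℕ) [Fact ℓ.Prime] (F : Type) [Field F], GoodF ℓ F →
  ∀ (Y : Type) [Group Y] [Finite Y] (K : Subgroup Y) (f : Y → F) (α β : MulAut Y) (p : ℕ)
  (α₁ β₁ : MulAut K),
  (∀ i, 0 < i → i ≤ p → ∀ x ∈ K, ∀ y ∈ K, x * (β ^ i) y = (β ^ i) y * x) →
  (⨆ i ∈ Finset.range (p + 1), K.map (β ^ i).toMonoidHom) = ⊤ →
  ¬ ℓ ∣ Nat.card (Subgroup.center Y) →
  (∀ i, i ≤ p → (K.map (β ^ i).toMonoidHom).map α.toMonoidHom = K.map (β ^ i).toMonoidHom) →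
  ResA K α α₁ → ResA K (β ^ (p + 1)) β₁ →
  ∀ f₁ : K → F, BlkU K f f₁ → Van ℓ f₁ α₁ β₁ → Van ℓ f α β

/-! ## Orbits -/

/-- ORB: a central product of components permuted by two automorphisms. -/
def OrvStmt : Prop := ∀ (ℓ : ℕ) [Fact ℓ.Prime] (F : Type) [Field F], GoodF ℓ F →
  ∀ (Y : Type) [Group Y] [Finite Y] (I : Type) [Finite I] (K : I → Subgroup Y) (f : Y → F)
  (α β : MulAut Y) (a b : Equiv.Perm I), (∀ i j, i ≠ j → ∀ x ∈ K i, ∀ y ∈ K j, x * y = y * x) →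
  (⨆ i, K i) = ⊤ → ¬ ℓ ∣ Nat.card (Subgroup.center Y) →
  (∀ i, (K i).map α.toMonoidHom = K (a i)) → (∀ i, (K i).map β.toMonoidHom = K (b i)) →
  a * b = b * a → ∀ (i : I) (f₁ : K i → F), BlkU (K i) f f₁ →
  (∀ p q k : ℕ, 0 < p → 0 < q → (a ^ p) i = i → (b ^ q * a ^ k) i = i →
    ∀ α₁ β₁ : MulAut (K i), ResA (K i) (α ^ p) α₁ → ResA (K i) (β ^ q * α ^ k) β₁ →
      Van ℓ f₁ α₁ β₁) →
  Van ℓ f α β

end Pool.Agent.PP
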