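import Pool.Agent.Helper98_PP.StmtsR2
import Pool.Agent.Helper66_PP.StmtsJ

/-!
# Squad PP, part R2: bridge to part J, components, the end

Text: `AWC_R2.md`, R2.7.
-/

open scoped BigOperators

noncomputable section

namespace Pool.Agent.PP

open Pool.Agent.Helper51_AWC Pool.Agent.Helper79_WRA

/-! ## Irreducible modular characters of direct products -/

/-- PIB: the irreducible modular characters of a direct product. -/
def PibStmt : Prop := ∀ (ℓ : ℕ) (F : Type) [Field F], GoodF ℓ F → ∀ (L₁ L₂ : Type) [Group L₁]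
  [Finite L₁] [Group L₂] [Finite L₂],
  (∀ (n m : ℕ) (ρ₁ : L₁ →* Matrix (Fin n) (Fin n) F) (ρ₂ : L₂ →* Matrix (Fin m) (Fin m) F),
    IsIrr ρ₁ → IsIrr ρ₂ → ∃ ρ : L₁ × L₂ →* Matrix (Fin (n * m)) (Fin (n * m)) F, IsIrr ρ ∧
      ∀ x, ρ x = kr (ρ₁ x.1) (ρ₂ x.2)) ∧
  (∀ φ₁ ∈ IBr F L₁, ∀ φ₂ ∈ IBr F L₂, (fun x : L₁ × L₂ => φ₁ x.1 * φ₂ x.2) ∈ IBr F (L₁ × L₂)) ∧
  (∀ φ ∈ IBr F (L₁ × L₂), ∃ φ₁ ∈ IBr F L₁, ∃ φ₂ ∈ IBr F L₂, φ = fun x => φ₁ x.1 * φ₂ x.2) ∧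
  ∀ φ₁ ∈ IBr F L₁, ∀ φ₂ ∈ IBr F L₂, ∀ ψ₁ ∈ IBr F L₁, ∀ ψ₂ ∈ IBr F L₂,
    (∀ x y, φ₁ x * φ₂ y = ψ₁ x * ψ₂ y) → φ₁ = ψ₁ ∧ φ₂ = ψ₂

/-- PIP: the irreducible modular characters of a direct power. -/
def PipStmt : Prop := ∀ (ℓ : ℕ) (F : Type) [Field F], GoodF ℓ F → ∀ (L : Type) [Group L]
  [Finite L] (q : ℕ),
  (∀ φ : Fin q → L → F, (∀ j, φ j ∈ IBr F L) →
    (fun x : Fin q → L => ∏ j, φ j (x j)) ∈ IBr F (Fin q → L)) ∧
  (∀ φ ∈ IBr F (Fin q → L), ∃ φs : Fin q → L → F, (∀ j, φs j ∈ IBr F L) ∧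
    φ = fun x => ∏ j, φs j (x j)) ∧
  ∀ φ ψ : Fin q → L → F, (∀ j, φ j ∈ IBr F L) → (∀ j, ψ j ∈ IBr F L) →
    (∀ x : Fin q → L, ∏ j, φ j (x j) = ∏ j, ψ j (x j)) → φ = ψ

/-! ## The bridge -/

/-- BRG: the pair sums of part J are the pair sums of the torus data. -/
def BrgStmt : Prop := ∀ (ℓ : ℕ) (F : Type) [Field F], GoodF ℓ F → ∀ τ : F → ℂ, IsLift τ →
  ∀ (X : Type) [Group X] [Finite X] (Y : Subgroup X) [Y.Normal] (f : X → F), SBlk Y f →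
  ∀ x y : X,
  (∀ u u', IsUnitOver f Y (x * y * x⁻¹ * y⁻¹) u u' →
    Torus (fun t : Y => f t) (MulAut.conjNormal x) (MulAut.conjNormal y)
      (fun t : Y => u (x * y * x⁻¹ * y⁻¹ * t)) (fun t : Y => u' (t * (x * y * x⁻¹ * y⁻¹)⁻¹)) ∧
    DJ τ ℓ Y f x y u = DD τ ℓ (fun t : Y => f t) (MulAut.conjNormal x) (MulAut.conjNormal y)
      (fun t : Y => u (x * y * x⁻¹ * y⁻¹ * t))) ∧
  ∀ w wi : Y → F, Torus (fun t : Y => f t) (MulAut.conjNormal x) (MulAut.conjNormal y) w wi →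
    ∃ u u', IsUnitOver f Y (x * y * x⁻¹ * y⁻¹) u u' ∧
      ∀ t : Y, w t = u (x * y * x⁻¹ * y⁻¹ * t)

/-! ## Components -/

/-- The components of a normal subgroup `N` of `G` and the blocks under the block `b` of `N`:
`K i` the components, `bK i` the block of `K i` under `b` extended by zero, `act` the action of `G`
on the set of the components. -/
structure Comps (ℓ : ℕ) {F G : Type} [Field F] [Group G] (N : Subgroup G) (b : N → F) (I : Type)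
    (K : I → Subgroup G) (bK : I → G → F) (act : G → Equiv.Perm I) : Prop where
  le : ∀ i, K i ≤ N
  comm : ∀ i j, i ≠ j → ∀ x ∈ K i, ∀ y ∈ K j, x * y = y * x
  sup : (⨆ i, K i) = N
  center : ¬ ℓ ∣ Nat.card (Subgroup.center N)
  map : ∀ g i, (K i).map (MulAut.conj g).toMonoidHom = K (act g i)
  mul : ∀ g h, act (g * h) = act g * act h
  norm : ∀ g i, g ∈ Subgroup.normalizer (K i : Set G) ↔ act g i = i
  blk : ∀ i, BlkU ((K i).subgroupOf N) b (fun t => bK i t)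
  sblk : ∀ i, SBlk ((K i).subgroupOf (Subgroup.normalizer (K i : Set G)))
    (fun t : Subgroup.normalizer (K i : Set G) => bK i t)
  pos : ∀ i, ¬ DZ ℓ (fun t : (K i).subgroupOf (Subgroup.normalizer (K i : Set G)) => bK i t)
  mu : ∀ i, mu ((K i).subgroupOf (Subgroup.normalizer (K i : Set G))) < mu N
  xf : ∀ g ∈ XF (ext0 N b) N, ∀ i, act g i = i ∧
    ∀ h : g ∈ Subgroup.normalizer (K i : Set G), (⟨g, h⟩ : Subgroup.normalizer (K i : Set G)) ∈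
      XF (fun t : Subgroup.normalizer (K i : Set G) => bK i t)
        ((K i).subgroupOf (Subgroup.normalizer (K i : Set G)))

/-- CMP2: existence of the components for a nonabelian chief factor which is not simple. -/
def ComStmt : Prop := ∀ (ℓ : ℕ) [Fact ℓ.Prime] (F : Type) [Field F], GoodF ℓ F →
  ∀ (G : Type) [Group G] [Finite G] (N : Subgroup G), Chief N → opCore ℓ N = ⊥ →
  (∃ x ∈ N, ∃ y ∈ N, x * y * x⁻¹ * y⁻¹ ∉ Subgroup.center G) →
  ¬ IsSimpleGroup (N ⧸ (Subgroup.center G).subgroupOf N) →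
  ∀ b : N → F, IsBlk b → stabF (ext0 N b) = ⊤ → ¬ DZ ℓ b →
  ∃ (I : Type) (_ : Finite I) (_ : Nonempty I) (K : I → Subgroup G) (bK : I → G → F)
    (act : G → Equiv.Perm I), Comps ℓ N b I K bK act

/-- JII: vanishing of all the pair sums of `N` from the vanishing of the pair sums of the
components. -/
def JiiStmt : Prop := ∀ (ℓ : ℕ) [Fact ℓ.Prime] (F : Type) [Field F], GoodF ℓ F →
  ∀ (G : Type) [Group G] [Finite G] (N : Subgroup G) [N.Normal] (b : N → F), SBlk N (ext0 N b) →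
  ∀ (I : Type) [Finite I] [Nonempty I] (K : I → Subgroup G) (bK : I → G → F)
    (act : G → Equiv.Perm I), Comps ℓ N b I K bK act →
  (∀ i, ∀ τ : F → ℂ, IsLift τ → DAll τ ℓ ((K i).subgroupOf (Subgroup.normalizer (K i : Set G)))
    (fun t : Subgroup.normalizer (K i : Set G) => bK i t)) →
  ∀ τ : F → ℂ, IsLift τ → DAll τ ℓ N (ext0 N b)

end Pool.Agent.PP
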